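import Pool.Agent.Helper93.HH.FDefs

/-!
# HH-EM, part 1: paths inside the cells, the edges inside a cell are parent edges, two cells are joined by at
most one edge
-/

open Set
open Pool.Agent.Helper83.OP
open Pool.Agent.Helper43.HH
open Pool.Agent.Helper93.HH

namespace Pool.Agent.Helper51.HH

set_option linter.unusedSectionVars false

open HD

/-- concatenation of two paths which meet only in the middle -/
theorem isPath_append {V : Type} {G : SimpleGraph V} {u v w : V} {p : G.Walk u v} {q : G.Walk v w}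
    (hp : p.IsPath) (hq : q.IsPath) (h : ∀ z ∈ p.support, z ∈ q.support → z = v) :
    (p.append q).IsPath := by
  rw [SimpleGraph.Walk.isPath_def] at hp hq ⊢
  rw [SimpleGraph.Walk.support_append, List.nodup_append]
  refine ⟨hp, hq.sublist (List.tail_sublist _), ?_⟩
  intro a ha b hb hab
  subst hab
  have h1 := h a ha (List.mem_of_mem_tail hb)
  subst h1
  rw [← SimpleGraph.Walk.cons_tail_support q] at hq hb
  simp only [List.tail_cons] at hb
  exact (List.nodup_cons.1 hq).1 hb

section Cel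

variable {V P Q : Type} [Finite V] {D : HD V P Q} {C : Set V} {ra : V → ℕ} (E : Cel D C ra)

theorem ctr_iter (v : V) : ∀ k, k ≤ E.dep v → E.ctr (E.par^[k] v) = E.ctr v := by
  intro k
  induction k with
  | zero => intro _; rfl
  | succ k ih =>
    intro hk
    have h1 := ih (by omega)
    have h2 := iter_dep E.par_dep v k (by omega)
    rw [Function.iterate_succ_apply', E.par_ctr _ (by omega), h1]

theorem root_iter (v : V) : E.par^[E.dep v] v = E.ctr v := by
  have h1 := iter_dep E.par_dep v (E.dep v) le_rfl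
  have h2 := ctr_iter E v (E.dep v) le_rfl
  have h3 : E.dep (E.par^[E.dep v] v) = 0 := by omega
  rw [E.dep_zero, h2] at h3
  exact h3.symm

theorem dep_ctr (v : V) : E.dep (E.ctr v) = 0 := (E.dep_zero _).2 (E.ctr_ctr v)

theorem anc_ctr (v : V) : Anc E.par E.dep (E.ctr v) v := by
  refine ⟨by rw [dep_ctr]; exact Nat.zero_le _, ?_⟩
  rw [dep_ctr, Nat.sub_zero]
  exact root_iter E v

theorem ctr_anc {u v : V} (h : Anc E.par E.dep u v) : E.ctr u = E.ctr v := by
  obtain ⟨h1, h2⟩ := h
  rw [← h2]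
  exact ctr_iter E v _ (by omega)

/-- walks do not go down faster than the depth -/
theorem dep_le_walk {u v : V} (h : E.ctr u = E.ctr v) (W : D.N.Walk u v) :
    E.dep v ≤ E.dep u + W.length := by
  have h1 : Nr D.N (E.dep u) u (E.ctr v) := by
    rw [← h]
    obtain ⟨p, hp, -⟩ := down_walk E.par_dep E.par_adj (E.dep u - E.dep (E.ctr u)) _ _ (anc_ctr E u) rfl
    refine Nr.symm ⟨p, ?_⟩
    omega
  have h2 := (Nr.of_walk W).symm.trans h1
  have h3 := E.dep_min v _ h2
  omega

/-- the way down as a path -/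
theorem down_path {u v : V} (h : Anc E.par E.dep u v) : ∃ p : D.N.Walk u v, p.IsPath ∧
    p.length + E.dep u = E.dep v ∧ (∀ z ∈ p.support, Anc E.par E.dep u z ∧ Anc E.par E.dep z v) ∧
    ∀ f ∈ p.edges, ∃ z, E.dep z ≠ 0 ∧ f = s(z, E.par z) := by
  classical
  obtain ⟨p, h1, h2, h3⟩ := down_walk E.par_dep E.par_adj _ _ _ h rfl
  have h4 := p.length_bypass_le_length
  have h5 := dep_le_walk E (ctr_anc E h) p.bypass
  have h6 := h.1
  refine ⟨p.bypass, p.bypass_isPath, by omega, fun z hz => h2 z (p.support_bypass_subset_support hz), ?_⟩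
  intro f hf
  obtain ⟨z, hz1, -, -, hz2⟩ := h3 f (p.edges_bypass_subset_edges hf)
  exact ⟨z, by omega, hz2⟩

/-- the tree path between two vertices of a cell -/
theorem cell_path {u v : V} (h : E.ctr u = E.ctr v) : ∃ (a : V) (W : D.N.Walk u v), W.IsPath ∧
    a ∈ W.support ∧ E.ctr a = E.ctr u ∧ E.dep a ≤ E.dep u ∧ E.dep a ≤ E.dep v ∧
    W.length + 2 * E.dep a = E.dep u + E.dep v ∧ (∀ z ∈ W.support, E.ctr z = E.ctr u) ∧
    ∀ f ∈ W.edges, ∃ z, E.dep z ≠ 0 ∧ f = s(z, E.par z) := by
  classical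
  have := Fintype.ofFinite V
  obtain ⟨m, hm1, -, hm2⟩ := exists_top (par := E.par) (dep := E.dep) (fun z : V => z) (E.ctr u)
    ({u, v} : Finset V) ⟨u, by simp⟩ (by
      intro i hi
      rw [Finset.mem_insert, Finset.mem_singleton] at hi
      rcases hi with rfl | rfl
      · exact anc_ctr E i
      · rw [h]
        exact anc_ctr E i)
  have hmu : Anc E.par E.dep m u := hm1 u (by simp)
  have hmv : Anc E.par E.dep m v := hm1 v (by simp)
  obtain ⟨p, p1, p2, p3, p4⟩ := down_path E hmu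
  obtain ⟨q, q1, q2, q3, q4⟩ := down_path E hmv
  refine ⟨m, p.reverse.append q, isPath_append p1.reverse q1 ?_, ?_, ctr_anc E hmu, hmu.1, hmv.1,
    ?_, ?_, ?_⟩
  · intro z hz hz'
    rw [SimpleGraph.Walk.support_reverse, List.mem_reverse] at hz
    by_contra hne
    have h1 := (p3 z hz).1
    have h2 : E.dep m < E.dep z := by
      rcases h1.1.lt_or_eq with h3 | h3
      · exact h3
      · exact absurd (h1.eq h3).symm hne
    obtain ⟨-, i, hi, hi2⟩ := hm2 z h2 u (by simp) (p3 z hz).2
    rw [Finset.mem_insert, Finset.mem_singleton] at hi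
    rcases hi with rfl | rfl
    · exact hi2 (p3 z hz).2
    · exact hi2 (q3 z hz').2
  · rw [SimpleGraph.Walk.mem_support_append_iff]
    exact Or.inr q.start_mem_support
  · rw [SimpleGraph.Walk.length_append, SimpleGraph.Walk.length_reverse]
    omega
  · intro z hz
    rw [SimpleGraph.Walk.mem_support_append_iff, SimpleGraph.Walk.support_reverse,
      List.mem_reverse] at hz
    rcases hz with hz | hz
    · exact ctr_anc E (p3 z hz).2
    · rw [h]
      exact ctr_anc E (q3 z hz).2
  · intro f hf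
    rw [SimpleGraph.Walk.edges_append, SimpleGraph.Walk.edges_reverse, List.mem_append,
      List.mem_reverse] at hf
    rcases hf with hf | hf
    · exact p4 f hf
    · exact q4 f hf

end Cel

section Sys

variable {V P Q : Type} [Finite V] {D : HD V P Q} {K : ℕ}

theorem sparse' (S : Sys D K) (hK : 10 ≤ K) {v : V} {C : D.N.Walk v v} (hC : C.IsCycle) {y : V}
    (hy : y ∈ C.support) : 10 * |S.E.sc y| + 10 * (D.L : ℤ) < C.length := by
  have h1 := S.sparse v C hC y hy
  have h2 : (0 : ℤ) ≤ |S.E.sc y| + D.L := by positivity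
  have h3 : (10 : ℤ) ≤ K := by exact_mod_cast hK
  nlinarith

theorem L_ge (hD : D.Ok) : 2 ≤ D.L := hD.r_pos.trans hD.r_le

/-- the edges inside a cell are parent edges -/
theorem inner_edge (hD : D.Ok) (S : Sys D K) (hK : 10 ≤ K) {u v : V} (h : D.N.Adj u v)
    (hc : S.E.ctr u = S.E.ctr v) :
    (S.E.dep u ≠ 0 ∧ S.E.par u = v) ∨ (S.E.dep v ≠ 0 ∧ S.E.par v = u) := by
  by_contra hcon
  obtain ⟨a, W, hW, ha, hac, had, had', hl, -, he⟩ := cell_path S.E hc.symm
  have hcyc : (SimpleGraph.Walk.cons h W).IsCycle := by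
    rw [SimpleGraph.Walk.cons_isCycle_iff]
    refine ⟨hW, fun hmem => ?_⟩
    obtain ⟨z, hz, hz2⟩ := he _ hmem
    rw [Sym2.eq_iff] at hz2
    rcases hz2 with ⟨h1, h2⟩ | ⟨h1, h2⟩
    · subst h1
      exact hcon (Or.inl ⟨hz, h2.symm⟩)
    · subst h2
      exact hcon (Or.inr ⟨hz, h1.symm⟩)
  have hL := L_ge hD
  have e1 := sparse' S hK hcyc (y := u) (by simp)
  have e2 := sparse' S hK hcyc (y := v) (by simp)
  have e3 := sparse' S hK hcyc (y := a) (by simp [ha])
  rw [SimpleGraph.Walk.length_cons] at e1 e2 e3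
  unfold Cel.sc at e1 e2 e3
  rw [hac, ← hc] at e3
  rw [← hc] at e2
  push_cast at e1 e2 e3
  have b1 := le_abs_self ((S.E.dep u : ℤ) - S.ra (S.E.ctr u))
  have b2 := le_abs_self ((S.E.dep v : ℤ) - S.ra (S.E.ctr u))
  have b3 := neg_abs_le ((S.E.dep a : ℤ) - S.ra (S.E.ctr u))
  omega

/-- two cells are joined by at most one edge -/
theorem exit_uniq (hD : D.Ok) (S : Sys D K) (hK : 10 ≤ K) {c u w u' w' : V}
    (h : Exit S c u w) (h' : Exit S c u' w') (hw : S.E.ctr w = S.E.ctr w') : u = u' ∧ w = w' := by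
  obtain ⟨h1, h2, h3⟩ := h
  obtain ⟨h1', h2', h3'⟩ := h'
  by_contra hcon
  have hc : S.E.ctr u = S.E.ctr u' := by rw [h1, h1']
  obtain ⟨a, W, hW, ha, hac, had, had', hl, hs, he⟩ := cell_path S.E hc
  obtain ⟨b, X, hX, hb, hbc, hbd, hbd', hl2, hs2, he2⟩ := cell_path S.E hw.symm
  have hin : ∀ z ∈ W.support, S.E.ctr z = c := fun z hz => by rw [hs z hz, h1]
  have hin2 : ∀ z ∈ X.support, S.E.ctr z = S.E.ctr w := fun z hz => by rw [hs2 z hz, hw]
  have hX' : (SimpleGraph.Walk.cons h3' X).IsPath := by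
    rw [SimpleGraph.Walk.cons_isPath_iff]
    refine ⟨hX, fun hmem => ?_⟩
    have := hin2 _ hmem
    rw [h1'] at this
    exact h2 this.symm
  have hp : (W.append (SimpleGraph.Walk.cons h3' X)).IsPath := by
    refine isPath_append hW hX' ?_
    intro z hz hz'
    rw [SimpleGraph.Walk.support_cons, List.mem_cons] at hz'
    rcases hz' with hz' | hz'
    · exact hz'
    · have e1 := hin z hz
      rw [hin2 z hz'] at e1
      exact absurd e1 h2
  have hcyc : (SimpleGraph.Walk.cons h3.symm (W.append (SimpleGraph.Walk.cons h3' X))).IsCycle := by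
    rw [SimpleGraph.Walk.cons_isCycle_iff]
    refine ⟨hp, fun hmem => ?_⟩
    rw [SimpleGraph.Walk.edges_append, SimpleGraph.Walk.edges_cons, List.mem_append,
      List.mem_cons] at hmem
    rcases hmem with hmem | hmem | hmem
    · have := hin w (SimpleGraph.Walk.fst_mem_support_of_mem_edges _ hmem)
      exact h2 this
    · rw [Sym2.eq_iff] at hmem
      rcases hmem with ⟨e1, e2⟩ | ⟨e1, e2⟩
      · rw [e1, h1'] at h2
        exact h2 rfl
      · exact hcon ⟨e2, e1⟩
    · have := hin2 u (SimpleGraph.Walk.snd_mem_support_of_mem_edges _ hmem)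
      rw [h1] at this
      exact h2 this.symm
  have hL := L_ge hD
  have e1 := sparse' S hK hcyc (y := u) (by simp)
  have e2 := sparse' S hK hcyc (y := u') (by simp)
  have e3 := sparse' S hK hcyc (y := a) (by simp [ha])
  have f1 := sparse' S hK hcyc (y := w) (by simp)
  have f2 := sparse' S hK hcyc (y := w') (by simp)
  have f3 := sparse' S hK hcyc (y := b) (by simp [hb])
  rw [SimpleGraph.Walk.length_cons, SimpleGraph.Walk.length_append,
    SimpleGraph.Walk.length_cons] at e1 e2 e3 f1 f2 f3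
  unfold Cel.sc at e1 e2 e3 f1 f2 f3
  rw [hac] at e3
  rw [← hc] at e2
  rw [← hw] at f2
  rw [hbc, ← hw] at f3
  push_cast at e1 e2 e3 f1 f2 f3
  have b1 := le_abs_self ((S.E.dep u : ℤ) - S.ra (S.E.ctr u))
  have b2 := le_abs_self ((S.E.dep u' : ℤ) - S.ra (S.E.ctr u))
  have b3 := neg_abs_le ((S.E.dep a : ℤ) - S.ra (S.E.ctr u))
  have c1 := le_abs_self ((S.E.dep w : ℤ) - S.ra (S.E.ctr w))
  have c2 := le_abs_self ((S.E.dep w' : ℤ) - S.ra (S.E.ctr w))
  have c3 := neg_abs_le ((S.E.dep b : ℤ) - S.ra (S.E.ctr w))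
  omega

end Sys

end Pool.Agent.Helper51.HH
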