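import Pool.Agent.Helper51.HH.Tree

/-!
# HH-EM: emission

`FF v` is the product of `1 / k u` over the proper ancestors `u` of `v`, where `k u` is the number of emitting
directions at `u` (`Dir`), and `0` below excluded branches. `mF u w = FF u / k u` for the exits.
-/

open Set
open Pool.Agent.Helper83.OP
open Pool.Agent.Helper43.HH
open Pool.Agent.Helper93.HH

namespace Pool.Agent.Helper51.HH

set_option linter.unusedSectionVars false

open HD

variable {V P Q : Type} [Finite V] [Finite P] [Finite Q] {D : HD V P Q} {K : ℕ}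

theorem ctr_x (S : Sys D K) {p : P} (hp : p ∉ S.Bd) : S.E.ctr (D.x p) = D.x p :=
  S.E.ctr_C _ (Or.inr ⟨p, hp, rfl⟩)

theorem dep_x (S : Sys D K) {p : P} (hp : p ∉ S.Bd) : S.E.dep (D.x p) = 0 :=
  (S.E.dep_zero _).2 (ctr_x S hp)

theorem x_Z (S : Sys D K) {p : P} (hp : p ∉ S.Bd) : D.x p ∉ S.Z :=
  fun h => hp (S.bd_thick p (S.Z_thick _ h))

theorem dep_ne (S : Sys D K) {p : P} {u : V} (hc : S.E.ctr u = D.x p) (hu : u ≠ D.x p) :
    S.E.dep u ≠ 0 := by
  rw [Ne, S.E.dep_zero, hc]
  exact hu.symm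

theorem cell_VN (S : Sys D K) {p : P} {u : V} (hc : S.E.ctr u = D.x p) : u ∈ D.VN := by
  by_cases hu : u = D.x p
  · rw [hu]
    exact x_VN p
  · exact VN_of_adj (S.E.par_adj u (dep_ne S hc hu))

theorem exists_pin {u : V} (h : D.pn u ≠ 0) : ∃ q, D.x q = u :=
  Set.nonempty_of_ncard_ne_zero h

/-- away from the centre a vertex of the cell has degree at least two in `N` -/
theorem deg_ge (hD : D.Ok) (S : Sys D K) {p : P} (hp : p ∉ S.Bd) {u : V}
    (hc : S.E.ctr u = D.x p) (hu : u ≠ D.x p) : 2 ≤ deg D.N u := by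
  have h1 := hD.two u (cell_VN S hc)
  unfold HD.dg at h1
  by_cases h0 : D.pn u = 0
  · omega
  · obtain ⟨q, hq⟩ := exists_pin h0
    have h2 := (S.bd_one u u ⟨q, hq⟩ ⟨q, hq⟩ rfl (by rw [hc]; exact x_Z S hp)
      (by rw [hc]; exact hu.symm) (by rw [hc]; exact hu.symm)).2
    have h3 := hD.three q
    rw [hq] at h3
    unfold HD.dg at h3
    have h4 : D.pn u ≤ 1 := h2
    omega

/-! ### the excluded branches -/

theorem Ex_par (hD : D.Ok) (S : Sys D K) (hK : 10 ≤ K) {p : P} (hp : p ∉ S.Bd) {z : V}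
    (hz : D.N.Adj (D.x p) z) (hc : S.E.ctr z = D.x p) : S.E.dep z = 1 ∧ S.E.par z = D.x p := by
  have h1 : S.E.ctr (D.x p) = S.E.ctr z := by rw [ctr_x S hp, hc]
  rcases inner_edge hD S hK hz h1 with ⟨h2, -⟩ | ⟨h2, h3⟩
  · exact absurd (dep_x S hp) h2
  · have h4 := S.E.par_dep z h2
    rw [h3, dep_x S hp] at h4
    exact ⟨h4.symm, h3⟩

theorem Ex_one (hD : D.Ok) (S : Sys D K) (hK : 10 ≤ K) {p : P} (hp : p ∉ S.Bd) {z z' : V}
    (hz : z ∈ Ex S p) (hz' : z' ∈ Ex S p) : z = z' := by
  obtain ⟨-, ha, hz⟩ := hz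
  obtain ⟨-, ha', hz'⟩ := hz'
  have hcx := ctr_x S hp
  rcases hz with ⟨h1, h2⟩ | ⟨h1, u, w, h3, h4, h5⟩
  · rcases hz' with ⟨h1', h2'⟩ | ⟨h1', u', w', h3', h4', h5'⟩
    · exact (exit_uniq hD S hK (c := D.x p) ⟨hcx, h2, ha⟩ ⟨hcx, h2', ha'⟩ (by rw [h1, h1'])).2
    · have h6 := (exit_uniq hD S hK (c := D.x p) ⟨hcx, h2, ha⟩ h4' (by rw [h1, h5'])).1
      rw [← h6] at h3'
      have h7 := h3'.1
      rw [dep_x S hp] at h7
      have h8 := (Ex_par hD S hK hp ha' h1').1
      omega
  · rcases hz' with ⟨h1', h2'⟩ | ⟨h1', u', w', h3', h4', h5'⟩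
    · have h6 := (exit_uniq hD S hK (c := D.x p) ⟨hcx, h2', ha'⟩ h4 (by rw [h1', h5])).1
      rw [← h6] at h3
      have h7 := h3.1
      rw [dep_x S hp] at h7
      have h8 := (Ex_par hD S hK hp ha h1).1
      omega
    · have h6 := (exit_uniq hD S hK h4 h4' (by rw [h5, h5'])).1
      subst h6
      have h8 := (Ex_par hD S hK hp ha h1).1
      have h8' := (Ex_par hD S hK hp ha' h1').1
      exact (Anc.lin h3 h3' (by omega)).eq (by omega)

theorem pt_x {p : P} (h : D.gp p = 0) : D.x (D.pt p) = D.x p := by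
  unfold HD.pt
  split_ifs with h1
  · exact (Nr.eq (h1.choose_spec.2.mono (t := 0) h.le)).symm
  · rfl

theorem Ex_pn (S : Sys D K) {p : P} (hp : p ∉ S.Bd) {z : V} (hz : z ∈ Ex S p) :
    D.pn (D.x p) ≤ 1 := by
  by_contra hcon
  have h1 : 1 < ({q | D.x q = D.x p} : Set P).ncard := by
    unfold HD.pn at hcon
    omega
  obtain ⟨q, hq, hqp⟩ := Set.exists_ne_of_one_lt_ncard h1 p
  have h2 : D.gp p = 0 := by
    have h3 : D.gp p ≤ 0 := D.gp_le_of (q := q) hqp (by
      have hq' : D.x q = D.x p := hq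
      rw [hq']
      exact Nr.refl _ _ _)
    omega
  have h4 := pt_x h2
  obtain ⟨-, -, hz⟩ := hz
  rw [h4, ctr_x S hp] at hz
  rcases hz with ⟨h5, h6⟩ | ⟨-, u, w, -, h7, h8⟩
  · exact h6 h5
  · exact h7.2.1 h8

theorem pn_x (p : P) (hs : 0 < D.sg (D.x p)) : D.pn (D.x p) ≤ 2 := by
  refine le_trans (Set.ncard_le_ncard ?_ (Set.toFinite _)) (D.sg_min hs)
  intro q hq
  have hq' : D.x q = D.x p := hq
  show Nr D.N 0 (D.x p) (D.x q)
  rw [hq']
  exact Nr.refl _ _ _

/-- a neighbour in `Ex` of a vertex which is not the centre -/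
theorem Ex_nb (hD : D.Ok) (S : Sys D K) (hK : 10 ≤ K) {p : P} (hp : p ∉ S.Bd) {u w : V}
    (hc : S.E.ctr u = D.x p) (hu : u ≠ D.x p) (huw : D.N.Adj u w) (hw : w ∈ Ex S p) :
    w = S.E.par u := by
  by_cases hcw : S.E.ctr w = D.x p
  · rcases inner_edge hD S hK huw (by rw [hc, hcw]) with ⟨-, h⟩ | ⟨-, h⟩
    · exact h.symm
    · rw [(Ex_par hD S hK hp hw.2.1 hcw).2] at h
      exact absurd h.symm hu
  · exact absurd (exit_uniq hD S hK (c := D.x p) ⟨hc, hcw, huw⟩ ⟨ctr_x S hp, hcw, hw.2.1⟩ rfl).1 hu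

/-! ### directions -/

open Classical in
/-- the emitting directions -/
noncomputable def Dir [Fintype V] (S : Sys D K) (p : P) (u : V) : Finset V :=
  Finset.univ.filter fun w => D.N.Adj u w ∧ (S.E.dep u ≠ 0 → w ≠ S.E.par u) ∧ w ∉ Ex S p

theorem mem_Dir [Fintype V] {S : Sys D K} {p : P} {u w : V} :
    w ∈ Dir S p u ↔ D.N.Adj u w ∧ (S.E.dep u ≠ 0 → w ≠ S.E.par u) ∧ w ∉ Ex S p := by
  classical
  unfold Dir
  rw [Finset.mem_filter]
  exact ⟨fun h => h.2, fun h => ⟨Finset.mem_univ _, h⟩⟩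

theorem Dir_ge [Fintype V] (hD : D.Ok) (S : Sys D K) (hK : 10 ≤ K) {p : P} (hp : p ∉ S.Bd) {u : V}
    (hc : S.E.ctr u = D.x p) (hu : u ≠ D.x p) : deg D.N u ≤ (Dir S p u).card + 1 := by
  classical
  have h1 : D.N.neighborSet u ⊆ ((insert (S.E.par u) (Dir S p u) : Finset V) : Set V) := by
    intro w hw
    rw [Finset.mem_coe, Finset.mem_insert]
    by_cases h2 : w = S.E.par u
    · exact Or.inl h2
    · exact Or.inr (mem_Dir.2 ⟨hw, fun _ => h2, fun h3 => h2 (Ex_nb hD S hK hp hc hu hw h3)⟩)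
  have h2 := Set.ncard_le_ncard h1 (Set.toFinite _)
  rw [Set.ncard_coe_finset] at h2
  exact h2.trans (Finset.card_insert_le _ _)

theorem Dir_pos [Fintype V] (hD : D.Ok) (S : Sys D K) (hK : 10 ≤ K) {p : P} (hp : p ∉ S.Bd)
    (hs : 0 < D.sg (D.x p)) {u : V} (hc : S.E.ctr u = D.x p) : 1 ≤ (Dir S p u).card := by
  classical
  by_cases hu : u = D.x p
  · subst hu
    have h3 := hD.three p
    unfold HD.dg at h3
    have hd := dep_x S hp
    by_cases hE : ∃ z, z ∈ Ex S p
    · obtain ⟨z, hz⟩ := hE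
      have h4 := Ex_pn S hp hz
      have h1 : D.N.neighborSet (D.x p) ⊆ ((insert z (Dir S p (D.x p)) : Finset V) : Set V) := by
        intro w hw
        rw [Finset.mem_coe, Finset.mem_insert]
        by_cases h2 : w ∈ Ex S p
        · exact Or.inl (Ex_one hD S hK hp h2 hz)
        · exact Or.inr (mem_Dir.2 ⟨hw, fun h => absurd hd h, h2⟩)
      have h2 := Set.ncard_le_ncard h1 (Set.toFinite _)
      rw [Set.ncard_coe_finset] at h2
      have h5 := h2.trans (Finset.card_insert_le _ _)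
      unfold deg at h3
      omega
    · have h4 := pn_x p hs
      have h1 : D.N.neighborSet (D.x p) ⊆ ((Dir S p (D.x p) : Finset V) : Set V) := by
        intro w hw
        rw [Finset.mem_coe]
        exact mem_Dir.2 ⟨hw, fun h => absurd hd h, fun h => hE ⟨w, h⟩⟩
      have h2 := Set.ncard_le_ncard h1 (Set.toFinite _)
      rw [Set.ncard_coe_finset] at h2
      unfold deg at h3
      omega
  · have h1 := Dir_ge hD S hK hp hc hu
    have h2 := deg_ge hD S hp hc hu
    omega

/-! ### the flow -/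

/-- `v` is in an excluded branch -/
def Below (S : Sys D K) (p : P) (v : V) : Prop := ∃ z ∈ Ex S p, Anc S.E.par S.E.dep z v

open Classical in
/-- the mass at `v` -/
noncomputable def FF [Fintype V] (S : Sys D K) (p : P) (v : V) : ℝ :=
  if S.E.ctr v = D.x p ∧ ¬ Below S p v then
    ∏ j ∈ Finset.range (S.E.dep v), (1 / ((Dir S p (S.E.par^[j + 1] v)).card : ℝ)) else 0

open Classical in
/-- the mass of the exits -/
noncomputable def mF [Fintype V] (S : Sys D K) (p : P) (u w : V) : ℝ :=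
  if S.E.ctr u = D.x p ∧ w ∈ Dir S p u ∧ S.E.ctr w ≠ D.x p then
    FF S p u / ((Dir S p u).card : ℝ) else 0

theorem FF_nonneg [Fintype V] (S : Sys D K) (p : P) (v : V) : 0 ≤ FF S p v := by
  unfold FF
  split_ifs
  · exact Finset.prod_nonneg fun _ _ => by positivity
  · exact le_rfl

theorem mF_nonneg [Fintype V] (S : Sys D K) (p : P) (u w : V) : 0 ≤ mF S p u w := by
  unfold mF
  split_ifs
  · exact div_nonneg (FF_nonneg S p u) (Nat.cast_nonneg _)
  · exact le_rfl

theorem FF_below [Fintype V] (S : Sys D K) (p : P) {v : V} (h : Below S p v) : FF S p v = 0 := by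
  unfold FF
  rw [if_neg]
  exact fun h1 => h1.2 h

theorem FF_step [Fintype V] (S : Sys D K) (p : P) {v w : V} (hc : S.E.ctr v = D.x p)
    (hw : S.E.dep w ≠ 0) (hwv : S.E.par w = v) (hv : ¬ Below S p v) (hE : w ∉ Ex S p) :
    FF S p w = FF S p v / ((Dir S p v).card : ℝ) := by
  have hcw : S.E.ctr w = D.x p := by rw [← S.E.par_ctr w hw, hwv, hc]
  have hBw : ¬ Below S p w := by
    rintro ⟨z, hz, h1⟩
    by_cases hzw : z = w
    · exact hE (hzw ▸ hz)
    · have h2 := (Anc.up S.E.par_dep h1 hzw).2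
      rw [hwv] at h2
      exact hv ⟨z, hz, h2⟩
  have hd : S.E.dep w = S.E.dep v + 1 := by
    rw [← hwv, S.E.par_dep w hw]
  unfold FF
  rw [if_pos ⟨hcw, hBw⟩, if_pos ⟨hc, hv⟩, hd, Finset.prod_range_succ']
  have e1 : ∏ j ∈ Finset.range (S.E.dep v), (1 / ((Dir S p (S.E.par^[j + 1 + 1] w)).card : ℝ)) =
      ∏ j ∈ Finset.range (S.E.dep v), (1 / ((Dir S p (S.E.par^[j + 1] v)).card : ℝ)) := by
    refine Finset.prod_congr rfl fun j _ => ?_
    rw [Function.iterate_succ_apply S.E.par (j + 1), hwv]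
  rw [e1, zero_add, Function.iterate_one, hwv, mul_one_div]

theorem Below_root (S : Sys D K) {p : P} (hp : p ∉ S.Bd) : ¬ Below S p (D.x p) := by
  rintro ⟨z, hz, h1⟩
  have h2 := h1.1
  rw [dep_x S hp] at h2
  have h3 := h1.eq (by rw [dep_x S hp]; omega)
  have h4 := hz.2.1
  rw [h3] at h4
  exact h4.ne rfl

theorem FF_root [Fintype V] (S : Sys D K) {p : P} (hp : p ∉ S.Bd) : FF S p (D.x p) = 1 := by
  unfold FF
  rw [if_pos ⟨ctr_x S hp, Below_root S hp⟩, dep_x S hp, Finset.prod_range_zero]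

open Classical in
/-- Kirchhoff's law at `v` -/
theorem node [Fintype V] (hD : D.Ok) (S : Sys D K) (hK : 10 ≤ K) {p : P} (hp : p ∉ S.Bd)
    (hs : 0 < D.sg (D.x p)) {v : V} (hc : S.E.ctr v = D.x p) :
    ∑ w, mF S p v w + ∑ w ∈ Finset.univ.filter (fun w => S.E.dep w ≠ 0 ∧ S.E.par w = v), FF S p w =
      FF S p v := by
  by_cases hB : Below S p v
  · have h1 : ∀ w, mF S p v w = 0 := by
      intro w
      unfold mF
      rw [FF_below S p hB]
      simp
    have h2 : ∀ w ∈ Finset.univ.filter (fun w => S.E.dep w ≠ 0 ∧ S.E.par w = v),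
        FF S p w = 0 := by
      intro w hw
      obtain ⟨-, h3, h4⟩ := Finset.mem_filter.1 hw
      obtain ⟨z, hz, h5⟩ := hB
      refine FF_below S p ⟨z, hz, h5.trans ?_⟩
      have h6 := anc_iter S.E.par_dep w 1 (by omega)
      rw [Function.iterate_one, h4] at h6
      exact h6
    rw [Finset.sum_eq_zero fun w _ => h1 w, Finset.sum_eq_zero h2, FF_below S p hB, add_zero]
  · have h1 : ∑ w, mF S p v w = ∑ w ∈ (Dir S p v).filter (fun w => S.E.ctr w ≠ D.x p),
        FF S p v / ((Dir S p v).card : ℝ) := by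
      rw [Finset.sum_filter, ← Finset.sum_subset (Finset.subset_univ (Dir S p v))]
      · refine Finset.sum_congr rfl fun w hw => ?_
        unfold mF
        by_cases h : S.E.ctr w ≠ D.x p
        · rw [if_pos ⟨hc, hw, h⟩, if_pos h]
        · rw [if_neg fun h' => h h'.2.2, if_neg h]
      · intro w _ hw
        unfold mF
        rw [if_neg fun h' => hw h'.2.1]
    have h2 : ∑ w ∈ Finset.univ.filter (fun w => S.E.dep w ≠ 0 ∧ S.E.par w = v), FF S p w =
        ∑ w ∈ (Dir S p v).filter (fun w => ¬ S.E.ctr w ≠ D.x p),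
          FF S p v / ((Dir S p v).card : ℝ) := by
      have h3 : (Dir S p v).filter (fun w => ¬ S.E.ctr w ≠ D.x p) ⊆
          Finset.univ.filter (fun w => S.E.dep w ≠ 0 ∧ S.E.par w = v) := by
        intro w hw
        obtain ⟨h4, h5⟩ := Finset.mem_filter.1 hw
        rw [not_not] at h5
        obtain ⟨h6, h7, h8⟩ := mem_Dir.1 h4
        refine Finset.mem_filter.2 ⟨Finset.mem_univ _, ?_⟩
        rcases inner_edge hD S hK h6 (by rw [hc, h5]) with ⟨h9, h10⟩ | h9
        · exact absurd h10.symm (h7 h9)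
        · exact h9
      rw [← Finset.sum_subset h3]
      · refine Finset.sum_congr rfl fun w hw => ?_
        obtain ⟨-, h4, h5⟩ := Finset.mem_filter.1 (h3 hw)
        exact FF_step S p hc h4 h5 hB (mem_Dir.1 (Finset.mem_filter.1 hw).1).2.2
      · intro w hw hw'
        obtain ⟨-, h4, h5⟩ := Finset.mem_filter.1 hw
        by_cases hE : w ∈ Ex S p
        · exact FF_below S p ⟨w, hE, Anc.refl w⟩
        · exfalso
          apply hw'
          refine Finset.mem_filter.2 ⟨mem_Dir.2 ⟨?_, ?_, hE⟩, ?_⟩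
          · have := S.E.par_adj w h4
            rw [h5] at this
            exact this.symm
          · intro h6 h7
            have h8 := S.E.par_dep w h4
            have h9 := S.E.par_dep v h6
            rw [h5] at h8
            rw [← h7] at h9
            omega
          · rw [not_not, ← S.E.par_ctr w h4, h5, hc]
    rw [h1, h2, Finset.sum_filter_add_sum_filter_not, Finset.sum_const, nsmul_eq_mul]
    have h3 := Dir_pos hD S hK hp hs hc
    have h4 : ((Dir S p v).card : ℝ) ≠ 0 := by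
      exact_mod_cast (by omega : (Dir S p v).card ≠ 0)
    field_simp

open Classical in
/-- the mass which leaves through the branch of `v` is the mass at `v` -/
theorem subtree [Fintype V] (hD : D.Ok) (S : Sys D K) (hK : 10 ≤ K) {p : P} (hp : p ∉ S.Bd)
    (hs : 0 < D.sg (D.x p)) (n : ℕ) : ∀ v : V, S.E.ctr v = D.x p →
    Finset.univ.sup S.E.dep ≤ S.E.dep v + n →
    ∑ u, (if Anc S.E.par S.E.dep v u then ∑ w, mF S p u w else 0) = FF S p v := by
  induction n with
  | zero =>
    intro v hc hn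
    have h0 := node hD S hK hp hs hc
    have h1 : Finset.univ.filter (fun w => S.E.dep w ≠ 0 ∧ S.E.par w = v) = ∅ := by
      rw [Finset.filter_eq_empty_iff]
      rintro w - ⟨h2, h3⟩
      have h4 := S.E.par_dep w h2
      have h5 : S.E.dep w ≤ Finset.univ.sup S.E.dep := Finset.le_sup (Finset.mem_univ w)
      rw [h3] at h4
      omega
    rw [h1, Finset.sum_empty, add_zero] at h0
    rw [← h0, Finset.sum_eq_single v]
    · rw [if_pos (Anc.refl v)]
    · intro u _ hu
      rw [if_neg]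
      intro h2
      obtain ⟨w, h3, h4, -⟩ := Anc.child S.E.par_dep h2 hu.symm
      have h5 := S.E.par_dep w h3
      have h6 : S.E.dep w ≤ Finset.univ.sup S.E.dep := Finset.le_sup (Finset.mem_univ w)
      rw [h4] at h5
      omega
    · intro h
      exact absurd (Finset.mem_univ v) h
  | succ n ih =>
    intro v hc hn
    have h0 := node hD S hK hp hs hc
    have h1 : ∀ w ∈ Finset.univ.filter (fun w => S.E.dep w ≠ 0 ∧ S.E.par w = v),
        FF S p w = ∑ u, (if Anc S.E.par S.E.dep w u then ∑ w', mF S p u w' else 0) := by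
      intro w hw
      obtain ⟨-, h2, h3⟩ := Finset.mem_filter.1 hw
      have h4 := S.E.par_dep w h2
      rw [h3] at h4
      refine (ih w ?_ (by omega)).symm
      rw [← S.E.par_ctr w h2, h3, hc]
    rw [Finset.sum_congr rfl h1, Finset.sum_comm] at h0
    rw [← h0]
    have h2 : ∑ w, mF S p v w = ∑ u, (if u = v then ∑ w, mF S p u w else 0) := by
      rw [Finset.sum_ite_eq' Finset.univ v]
      rw [if_pos (Finset.mem_univ v)]
    rw [h2, ← Finset.sum_add_distrib]
    refine Finset.sum_congr rfl fun u _ => ?_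
    have hch : ∀ w ∈ Finset.univ.filter (fun w => S.E.dep w ≠ 0 ∧ S.E.par w = v),
        S.E.dep w = S.E.dep v + 1 ∧ Anc S.E.par S.E.dep v w := by
      intro w hw
      obtain ⟨-, h3, h4⟩ := Finset.mem_filter.1 hw
      have h5 := S.E.par_dep w h3
      have h6 := anc_iter S.E.par_dep w 1 (by omega)
      rw [Function.iterate_one, h4] at h6
      rw [h4] at h5
      exact ⟨h5.symm, h6⟩
    by_cases hvu : Anc S.E.par S.E.dep v u
    · rw [if_pos hvu]
      by_cases huv : u = v
      · have hz : ∑ w ∈ Finset.univ.filter (fun w => S.E.dep w ≠ 0 ∧ S.E.par w = v),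
            (if Anc S.E.par S.E.dep w u then ∑ w', mF S p u w' else 0) = 0 := by
          refine Finset.sum_eq_zero fun w hw => ?_
          rw [if_neg]
          intro h5
          have h6 := h5.1
          have h7 := (hch w hw).1
          rw [huv] at h6
          omega
        rw [if_pos huv, hz, add_zero]
      · obtain ⟨w, h3, h4, h5⟩ := Anc.child S.E.par_dep hvu (Ne.symm huv)
        have hw : w ∈ Finset.univ.filter (fun w => S.E.dep w ≠ 0 ∧ S.E.par w = v) :=
          Finset.mem_filter.2 ⟨Finset.mem_univ w, h3, h4⟩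
        have hz : ∑ w ∈ Finset.univ.filter (fun w => S.E.dep w ≠ 0 ∧ S.E.par w = v),
            (if Anc S.E.par S.E.dep w u then ∑ w', mF S p u w' else 0) = ∑ w', mF S p u w' := by
          rw [Finset.sum_eq_single_of_mem w hw, if_pos h5]
          intro w' hw' hne
          rw [if_neg]
          intro h6
          have h7 := (hch w hw).1
          have h8 := (hch w' hw').1
          exact hne ((Anc.lin h6 h5 (by omega)).eq (by omega))
        rw [if_neg huv, zero_add, hz]
    · have hz : ∑ w ∈ Finset.univ.filter (fun w => S.E.dep w ≠ 0 ∧ S.E.par w = v),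
          (if Anc S.E.par S.E.dep w u then ∑ w', mF S p u w' else 0) = 0 := by
        refine Finset.sum_eq_zero fun w hw => ?_
        rw [if_neg]
        intro h5
        exact hvu ((hch w hw).2.trans h5)
      have huv : u ≠ v := by
        rintro rfl
        exact hvu (Anc.refl _)
      rw [if_neg hvu, if_neg huv, hz, add_zero]

/-! ### decay -/

/-- among `L` consecutive ancestors one has degree at least three -/
theorem block (hD : D.Ok) (S : Sys D K) {p : P} {v : V} (hc : S.E.ctr v = D.x p) (i : ℕ)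
    (hi : (i + 1) * D.L ≤ S.E.dep v - 1) :
    ∃ j, i * D.L ≤ j ∧ j < (i + 1) * D.L ∧ 3 ≤ D.dg (S.E.par^[j + 1] v) := by
  classical
  have hL := L_ge hD
  have hLi : (i + 1) * D.L = i * D.L + D.L := by ring
  have hd1 := iter_dep S.E.par_dep v ((i + 1) * D.L) (by omega)
  have hd2 := iter_dep S.E.par_dep v (i * D.L + 1) (by omega)
  have hA1 := anc_iter S.E.par_dep v ((i + 1) * D.L) (by omega)
  have hA2 := anc_iter S.E.par_dep v (i * D.L + 1) (by omega)
  have hA := Anc.lin hA1 hA2 (by omega)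
  obtain ⟨q, q1, q2, q3, -⟩ := down_path S.E hA
  by_contra hcon
  push Not at hcon
  have h1 : ∀ z ∈ q.support, D.dg z = 2 := by
    intro z hz
    obtain ⟨h2, h3⟩ := q3 z hz
    have h4 := h3.trans hA2
    have h5 := h2.1
    have h6 := h3.1
    obtain ⟨h7, h8⟩ := h4
    have h9 := hcon (S.E.dep v - S.E.dep z - 1) (by omega) (by omega)
    rw [show S.E.dep v - S.E.dep z - 1 + 1 = S.E.dep v - S.E.dep z by omega, h8] at h9
    have hcz : S.E.ctr z = D.x p := by rw [ctr_anc S.E ⟨h7, h8⟩, hc]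
    have h10 := hD.two z (cell_VN S hcz)
    omega
  have h2 := hD.thr_le _ _ q q1 h1
  omega

theorem decay [Fintype V] (hD : D.Ok) (S : Sys D K) (hK : 10 ≤ K) {p : P} (hp : p ∉ S.Bd) (v : V) :
    FF S p v ≤ 8 / 2 ^ (S.E.dep v / D.L) := by
  classical
  unfold FF
  split_ifs with h
  swap
  · positivity
  obtain ⟨hc, -⟩ := h
  have hL := L_ge hD
  set d := S.E.dep v with hd
  have hdep : ∀ j, j < d → S.E.dep (S.E.par^[j + 1] v) + (j + 1) = d := fun j hj =>
    iter_dep S.E.par_dep v (j + 1) (by omega)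
  have hctr : ∀ j, j < d → S.E.ctr (S.E.par^[j + 1] v) = D.x p := fun j hj => by
    rw [ctr_iter S.E v (j + 1) (by omega), hc]
  set A := (Finset.range d).filter fun j => 2 ≤ (Dir S p (S.E.par^[j + 1] v)).card with hA
  set B := (Finset.range (d - 1)).filter fun j => 3 ≤ D.dg (S.E.par^[j + 1] v) with hB
  have h1 : ∏ j ∈ Finset.range d, (1 / ((Dir S p (S.E.par^[j + 1] v)).card : ℝ)) ≤
      (1 / 2) ^ A.card := by
    have h2 : ∏ j ∈ Finset.range d, (1 / ((Dir S p (S.E.par^[j + 1] v)).card : ℝ)) ≤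
        ∏ j ∈ Finset.range d,
          (if 2 ≤ (Dir S p (S.E.par^[j + 1] v)).card then (1 / 2 : ℝ) else 1) := by
      refine Finset.prod_le_prod (fun _ _ => by positivity) fun j _ => ?_
      split_ifs with h3
      · refine one_div_le_one_div_of_le (by norm_num) ?_
        exact_mod_cast h3
      · rcases Nat.eq_zero_or_pos (Dir S p (S.E.par^[j + 1] v)).card with h4 | h4
        · rw [h4]
          simp
        · rw [div_le_one (by exact_mod_cast h4)]
          exact_mod_cast h4
    refine h2.trans (le_of_eq ?_)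
    rw [Finset.prod_ite, Finset.prod_const, Finset.prod_const_one, mul_one]
  have h2 : (B \ A).card ≤ 1 := by
    rw [Finset.card_le_one]
    have key : ∀ j ∈ B \ A, j < d ∧ S.E.par^[j + 1] v ≠ D.x p ∧
        ∃ q, D.x q = S.E.par^[j + 1] v := by
      intro j hj
      obtain ⟨hj1, hj2⟩ := Finset.mem_sdiff.1 hj
      obtain ⟨hj3, hj4⟩ := Finset.mem_filter.1 hj1
      rw [Finset.mem_range] at hj3
      have hne : S.E.par^[j + 1] v ≠ D.x p := by
        intro h5
        have h6 := hdep j (by omega)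
        rw [h5, dep_x S hp] at h6
        omega
      have hk : (Dir S p (S.E.par^[j + 1] v)).card ≤ 1 := by
        by_contra hcon
        exact hj2 (Finset.mem_filter.2 ⟨Finset.mem_range.2 (by omega), by omega⟩)
      have h7 := Dir_ge hD S hK hp (hctr j (by omega)) hne
      refine ⟨by omega, hne, exists_pin ?_⟩
      unfold HD.dg at hj4
      omega
    intro j hj j' hj'
    obtain ⟨k1, k2, k3⟩ := key j hj
    obtain ⟨k1', k2', k3'⟩ := key j' hj'
    have c1 := hctr j k1
    have c1' := hctr j' k1'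
    have h3 := (S.bd_one _ _ k3 k3' (by rw [c1, c1']) (by rw [c1]; exact x_Z S hp)
      (by rw [c1]; exact k2.symm) (by rw [c1']; exact k2'.symm)).1
    have h4 := hdep j k1
    have h5 := hdep j' k1'
    rw [h3] at h4
    omega
  have h3 : (d - 1) / D.L ≤ B.card := by
    have h4 : Finset.range ((d - 1) / D.L) ⊆ B.image (fun j => j / D.L) := by
      intro i hi
      rw [Finset.mem_range] at hi
      have h5 : (i + 1) * D.L ≤ d - 1 := by
        calc (i + 1) * D.L ≤ ((d - 1) / D.L) * D.L := Nat.mul_le_mul_right _ hi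
          _ ≤ d - 1 := Nat.div_mul_le_self _ _
      obtain ⟨j, hj1, hj2, hj3⟩ := block hD S hc i h5
      refine Finset.mem_image.2 ⟨j, Finset.mem_filter.2 ⟨Finset.mem_range.2 (by omega), hj3⟩, ?_⟩
      exact Nat.div_eq_of_lt_le hj1 hj2
    have h5 := Finset.card_le_card h4
    rw [Finset.card_range] at h5
    exact h5.trans Finset.card_image_le
  have h4 : B.card ≤ (B \ A).card + A.card := Finset.card_le_card_sdiff_add_card
  have h5 : d / D.L ≤ (d - 1) / D.L + 1 := by
    have : d / D.L ≤ ((d - 1) + D.L) / D.L := Nat.div_le_div_right (by omega)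
    rwa [Nat.add_div_right _ (by omega)] at this
  have h6 : d / D.L ≤ A.card + 2 := by omega
  refine h1.trans ?_
  rw [one_div, inv_pow, ← one_div, div_le_div_iff₀ (by positivity) (by positivity), one_mul]
  calc (2 : ℝ) ^ (d / D.L) ≤ 2 ^ (A.card + 2) := pow_le_pow_right₀ (by norm_num) h6
    _ = 4 * 2 ^ A.card := by ring
    _ ≤ 8 * 2 ^ A.card := by
      have : (0 : ℝ) < 2 ^ A.card := by positivity
      linarith

open Classical in
/-- For a good pin `p` with at most two pins at `x p`: a flow of mass one from `x p` to the allowed exits of its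
cell. `F v` is the mass at `v`, `m u w` the mass of the exit `(u, w)`. -/
theorem emission [Fintype V] (hD : D.Ok) (S : Sys D K) (hK : 10 ≤ K) (p : P) (hp : p ∉ S.Bd)
    (hs : 0 < D.sg (D.x p)) :
    ∃ (F : V → ℝ) (m : V → V → ℝ), (∀ v, 0 ≤ F v) ∧
      (∀ v, F v ≤ 8 / 2 ^ (S.E.dep v / D.L)) ∧ (∀ u w, 0 ≤ m u w) ∧
      (∀ u w, m u w ≠ 0 → Al S p u w) ∧ (∑ u, ∑ w, m u w = 1) ∧
      ∀ v, S.E.ctr v = D.x p →
        ∑ u, ∑ w, (if Anc S.E.par S.E.dep v u then m u w else 0) ≤ F v := by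
  have hsub : ∀ v, S.E.ctr v = D.x p →
      ∑ u, ∑ w, (if Anc S.E.par S.E.dep v u then mF S p u w else 0) = FF S p v := by
    intro v hc
    rw [← subtree hD S hK hp hs (Finset.univ.sup S.E.dep) v hc (by omega)]
    refine Finset.sum_congr rfl fun u _ => ?_
    split_ifs
    · rfl
    · exact Finset.sum_const_zero
  refine ⟨FF S p, mF S p, FF_nonneg S p, decay hD S hK hp, mF_nonneg S p, ?_, ?_,
    fun v hc => (hsub v hc).le⟩
  · intro u w h
    have h1 : S.E.ctr u = D.x p ∧ w ∈ Dir S p u ∧ S.E.ctr w ≠ D.x p := by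
      by_contra h2
      apply h
      unfold mF
      rw [if_neg h2]
    obtain ⟨h2, h3, h4⟩ := h1
    obtain ⟨h5, -, h6⟩ := mem_Dir.1 h3
    refine ⟨⟨h2, h4, h5⟩, h6, fun z hz hzu => h ?_⟩
    unfold mF
    rw [FF_below S p ⟨z, hz, hzu⟩]
    simp
  · rw [← FF_root S hp, ← hsub _ (ctr_x S hp)]
    refine Finset.sum_congr rfl fun u _ => Finset.sum_congr rfl fun w _ => ?_
    by_cases h : Anc S.E.par S.E.dep (D.x p) u
    · rw [if_pos h]
    · rw [if_neg h]
      unfold mF
      rw [if_neg]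
      rintro ⟨h1, -⟩
      apply h
      have := anc_ctr S.E u
      rwa [h1] at this

end Pool.Agent.Helper51.HH
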